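import Pool.Agent.P8H73.KV.Stm

/-! Package MAJ of the project KV: the majorant. -/

set_option autoImplicit false

namespace Pool.Agent.P8H65.KV

open Finset Pool.Agent.Y844.BT
open Pool.Agent.P8H73.KV (GS lam Adm Cor Err S_SEL S_MAJ)

lemma expand (k : ℕ) (l c : ℤ) (L Δ : ℕ) (S : Finset ℕ) :
    ∑ n ∈ range (2 * Δ + L), Wt L Δ n *
      (∑ d ∈ S, (if (d : ℤ) ∣ k * (c + n) + l then lam S d else 0)) ^ 2 =
      (Δ + L) * (∑ d ∈ S, ∑ e ∈ S, lam S d * lam S e / (Nat.lcm d e : ℝ)) + Err k l c L Δ S := by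
  have h1 : ∀ n : ℕ, Wt L Δ n * (∑ d ∈ S, (if (d : ℤ) ∣ k * (c + n) + l then lam S d else 0)) ^ 2 =
      ∑ d ∈ S, ∑ e ∈ S, lam S d * lam S e *
        (Wt L Δ n * (if ((Nat.lcm d e : ℕ) : ℤ) ∣ k * (c + n) + l then 1 else 0)) := by
    intro n
    rw [sq, sum_mul_sum, mul_sum]
    refine sum_congr rfl fun d _ => ?_
    rw [mul_sum]
    refine sum_congr rfl fun e _ => ?_
    have h2 : ((Nat.lcm d e : ℕ) : ℤ) ∣ k * (c + n) + l ↔
        (d : ℤ) ∣ k * (c + n) + l ∧ (e : ℤ) ∣ k * (c + n) + l := by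
      rw [Int.natCast_dvd, Int.natCast_dvd, Int.natCast_dvd]
      exact Nat.lcm_dvd_iff
    by_cases a : (d : ℤ) ∣ k * (c + n) + l
    · by_cases b : (e : ℤ) ∣ k * (c + n) + l
      · rw [if_pos a, if_pos b, if_pos (h2.2 ⟨a, b⟩)]
        ring
      · rw [if_neg b, if_neg (fun h => b (h2.1 h).2)]
        ring
    · rw [if_neg a, if_neg (fun h => a (h2.1 h).1)]
      ring
  rw [sum_congr rfl fun n _ => h1 n, sum_comm]
  rw [sum_congr rfl fun d _ => sum_comm]
  unfold Err
  rw [mul_sum, ← sum_add_distrib]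
  refine sum_congr rfl fun d _ => ?_
  rw [mul_sum, ← sum_add_distrib]
  refine sum_congr rfl fun e _ => ?_
  rw [← mul_sum]
  unfold RR
  ring

/-- **package MAJ** -/
theorem maj : S_SEL → S_MAJ := by
  classical
  intro hSEL k l x y R Δ S hk hyx hy hΔ hΔy hR hA
  obtain ⟨hl1, _, _, hform⟩ := hSEL S hA.1 (fun m hm => (hA.2.1 m hm).1) hA.2.2
  have hk0 : (0 : ℝ) < k := by exact_mod_cast hk
  have hky : 200 * (k : ℝ) ≤ y := by rwa [le_div_iff₀ hk0] at hy
  have hy0 : 0 < y := by linarith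
  have hx0 : 0 < x := by linarith
  obtain ⟨u0, hu0⟩ : ∃ u0 : ℤ, u0 = ⌊(x - y - l) / k⌋ := ⟨_, rfl⟩
  obtain ⟨u1, hu1⟩ : ∃ u1 : ℤ, u1 = ⌊(x - l) / k⌋ := ⟨_, rfl⟩
  have hu01 : u0 ≤ u1 := by
    rw [hu0, hu1]
    apply Int.floor_le_floor
    apply div_le_div_of_nonneg_right _ hk0.le
    linarith
  obtain ⟨L, hL⟩ : ∃ L : ℕ, (L : ℤ) = u1 - u0 := ⟨(u1 - u0).toNat, Int.toNat_of_nonneg (by omega)⟩
  have hLr : (L : ℝ) = u1 - u0 := by exact_mod_cast hL
  have a0 : (u0 : ℝ) ≤ (x - y - l) / k := by rw [hu0]; exact Int.floor_le _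
  have a1 : (x - y - l) / k < u0 + 1 := by rw [hu0]; exact Int.lt_floor_add_one _
  have b0 : (u1 : ℝ) ≤ (x - l) / k := by rw [hu1]; exact Int.floor_le _
  have b1 : (x - l) / k < u1 + 1 := by rw [hu1]; exact Int.lt_floor_add_one _
  refine ⟨u0 - Δ, L, ?_, ?_, ?_⟩
  · rw [hLr]
    have : (x - l) / k - (x - y - l) / k = y / k := by
      rw [← sub_div]
      congr 1
      ring
    linarith
  · rw [le_div_iff₀ hk0] at a0 b0
    rw [div_lt_iff₀ hk0] at a1 b1
    have hkΔ : (k : ℝ) * Δ ≤ x / 100 := by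
      calc (k : ℝ) * Δ ≤ k * (y / k / 100) := mul_le_mul_of_nonneg_left hΔy hk0.le
        _ = y / 100 := by field_simp
        _ ≤ x / 100 := by linarith
    have hkΔ0 : 0 ≤ (k : ℝ) * Δ := by positivity
    intro t ht
    have hcase : x - y - k - k * Δ ≤ (k : ℝ) * t + l ∧ (k : ℝ) * t + l ≤ x + k * Δ := by
      rcases ht with ht | ht | ht | ht
      · have h1 : (k : ℝ) * t = (k : ℝ) * u0 - k * Δ := by rw [ht]; push_cast; ring
        rw [h1]
        constructor <;> linarith
      · have h1 : (k : ℝ) * t = (k : ℝ) * u0 := by rw [ht]; push_cast; ring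
        rw [h1]
        constructor <;> linarith
      · have h1 : (k : ℝ) * t = (k : ℝ) * u1 := by rw [ht]; push_cast; rw [hLr]; ring
        rw [h1]
        constructor <;> linarith
      · have h1 : (k : ℝ) * t = (k : ℝ) * u1 + k * Δ := by rw [ht]; push_cast; rw [hLr]; ring
        rw [h1]
        constructor <;> linarith
    obtain ⟨h1, h2⟩ := hcase
    refine ⟨?_, ?_⟩
    · rw [abs_le]
      constructor <;> linarith
    · rcases le_or_gt x (16 * y) with h3 | h3
      · right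
        have h4 : 0 < y / k := by positivity
        rw [div_le_iff₀ h4]
        have h5 : 16 * (k : ℝ) * (y / k) = 16 * y := by field_simp
        rw [h5]
        exact h3
      · left
        have h6 : (k : ℝ) * t + l ≤ |(k : ℝ) * t + l| := le_abs_self _
        linarith
  · -- the counting function
    have hN : (Pool.Agent.P8H73.GM.N x y k l : ℝ) = ((Pr k l x y).card : ℝ) := by
      unfold Pool.Agent.P8H73.GM.N
      rw [Pr_card k l x y hx0.le]
    have hsplit : ((Pr k l x y).card : ℝ) = (((Pr k l x y).filter (fun p : ℕ => R < (p : ℝ))).card : ℝ) +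
        (((Pr k l x y).filter (fun p : ℕ => ¬ R < (p : ℝ))).card : ℝ) := by
      rw [← Nat.cast_add, card_filter_add_card_filter_not]
    have hsm := cnt_small k hk l x y hx0.le R hR
    have hbig := cnt k hk l x y hx0.le hy0.le u0 u1 hu0 hu1 L Δ hL hΔ
      (fun v : ℤ => (∑ d ∈ S, (if (d : ℤ) ∣ v then lam S d else 0)) ^ 2) (fun v => sq_nonneg _) R ?_
    · have hex := expand k l (u0 - Δ) L Δ S
      rw [hform] at hex
      have h3 : ((Δ : ℝ) + L) * (1 / GS S) = (Δ + L) / GS S := by rw [mul_one_div]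
      rw [h3] at hex
      have h4 := hbig.trans hex.le
      rw [hN, hsplit]
      linarith
    · intro p hp hRp
      have h5 : ∑ d ∈ S, (if (d : ℤ) ∣ (p : ℤ) then lam S d else 0) = 1 := by
        rw [sum_eq_single_of_mem 1 hA.1]
        · rw [if_pos (by exact_mod_cast one_dvd _), hl1]
        · intro d hd hd1
          rw [if_neg]
          intro hdp
          have h6 : d ∣ p := by exact_mod_cast hdp
          rcases (Nat.dvd_prime hp).1 h6 with h7 | h7
          · exact hd1 h7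
          · have h8 := (hA.2.1 d hd).2.2
            rw [h7] at h8
            linarith
      show 1 ≤ (∑ d ∈ S, (if (d : ℤ) ∣ (p : ℤ) then lam S d else 0)) ^ 2
      rw [h5]
      norm_num

end Pool.Agent.P8H65.KV
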