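import Pool.Agent.P8H73.KV.Stm

/-! Package SEL of the project KV: Selberg's weights of a divisor closed set. -/

set_option autoImplicit false

namespace Pool.Agent.P8H65.KV

open Finset
open Pool.Agent.H376R2.MR hiding lam
open Pool.Agent.P8H73.KV (GS lam S_SEL)
open scoped ArithmeticFunction.Moebius

lemma GS_pos {S : Finset ℕ} (h1 : 1 ∈ S) : 0 < GS S := by
  have h2 : sw_g 1 ≤ GS S := Finset.single_le_sum (f := sw_g) (fun i _ => sw_g_nonneg i) h1
  rw [sw_g_one] at h2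
  linarith

/-- the key bound for `|lam S d| ≤ 1` -/
lemma key (S : Finset ℕ) (hsq : ∀ m ∈ S, Squarefree m) (hcl : ∀ m ∈ S, ∀ d, d ∣ m → d ∈ S) (d : ℕ) (hd : Squarefree d) :
    (d : ℝ) * ∑ m ∈ S.filter (fun m => d ∣ m), sw_g m ≤ GS S := by
  have hd0 : 0 < d := Nat.pos_of_ne_zero hd.ne_zero
  obtain ⟨T, hT⟩ : ∃ T, T = S.filter (fun m => d ∣ m) := ⟨_, rfl⟩
  rw [← hT]
  have h2 : ∀ m ∈ T, (d : ℝ) * sw_g m = ∑ k ∈ d.divisors, sw_g (k * (m / d)) := by
    intro m hm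
    rw [hT, Finset.mem_filter] at hm
    obtain ⟨hmS, ⟨c, rfl⟩⟩ := hm
    have hs := hsq _ hmS
    have hcop := sw_coprime hs
    rw [Nat.mul_div_cancel_left c hd0, sw_g_mul hcop]
    have e1 : ∀ k ∈ d.divisors, sw_g (k * c) = sw_g k * sw_g c := by
      intro k hk
      exact sw_g_mul (Nat.Coprime.coprime_dvd_left (Nat.dvd_of_mem_divisors hk) hcop)
    rw [Finset.sum_congr rfl e1, ← Finset.sum_mul]
    have e2 := sw_sum hd
    have e3 := sw_phi_g hd
    calc (d : ℝ) * (sw_g d * sw_g c) =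
        ((Nat.totient d : ℝ) * ∑ k ∈ d.divisors, sw_g k) * (sw_g d * sw_g c) := by rw [e2]
      _ = ((Nat.totient d : ℝ) * sw_g d) * ((∑ k ∈ d.divisors, sw_g k) * sw_g c) := by ring
      _ = _ := by rw [e3, one_mul]
  rw [Finset.mul_sum, Finset.sum_congr rfl h2, ← Finset.sum_product']
  have hinj : Set.InjOn (fun p : ℕ × ℕ => p.2 * (p.1 / d)) (T ×ˢ d.divisors : Finset (ℕ × ℕ)) := by
    rintro ⟨m, k⟩ hp ⟨m', k'⟩ hp' heq
    rw [Finset.mem_coe, Finset.mem_product, hT, Finset.mem_filter] at hp hp'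
    obtain ⟨⟨hmS, ⟨c, hc⟩⟩, hk⟩ := hp
    obtain ⟨⟨hmS', ⟨c', hc'⟩⟩, hk'⟩ := hp'
    simp only at hc hc' hk hk' heq hmS hmS'
    have hs := hsq _ hmS
    have hs' := hsq _ hmS'
    subst hc
    subst hc'
    rw [Nat.mul_div_cancel_left c hd0, Nat.mul_div_cancel_left c' hd0] at heq
    have hkd := Nat.dvd_of_mem_divisors hk
    have hkd' := Nat.dvd_of_mem_divisors hk'
    have g1 : (k * c).gcd d = k := by
      rw [Nat.Coprime.gcd_mul_right_cancel k (sw_coprime hs).symm]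
      exact Nat.gcd_eq_left hkd
    have g2 : (k' * c').gcd d = k' := by
      rw [Nat.Coprime.gcd_mul_right_cancel k' (sw_coprime hs').symm]
      exact Nat.gcd_eq_left hkd'
    have hkk : k = k' := by rw [← g1, ← g2, heq]
    subst hkk
    have hk0 : 0 < k := Nat.pos_of_mem_divisors hk
    have hcc : c = c' := Nat.eq_of_mul_eq_mul_left hk0 heq
    subst hcc
    rfl
  have h3 : ∑ p ∈ T ×ˢ d.divisors, sw_g (p.2 * (p.1 / d)) =
      ∑ n ∈ (T ×ˢ d.divisors).image (fun p : ℕ × ℕ => p.2 * (p.1 / d)), sw_g n := by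
    rw [Finset.sum_image hinj]
  rw [h3]
  unfold GS
  apply Finset.sum_le_sum_of_subset_of_nonneg
  · intro n hn
    obtain ⟨⟨m, k⟩, hp, rfl⟩ := Finset.mem_image.1 hn
    rw [Finset.mem_product, hT, Finset.mem_filter] at hp
    obtain ⟨⟨hmS, ⟨c, hc⟩⟩, hk⟩ := hp
    simp only at hmS hc hk ⊢
    subst hc
    rw [Nat.mul_div_cancel_left c hd0]
    exact hcl _ hmS _ (Nat.mul_dvd_mul_right (Nat.dvd_of_mem_divisors hk) c)
  · intro n _ _
    exact sw_g_nonneg n

lemma pos_of_mem {S : Finset ℕ} (hsq : ∀ m ∈ S, Squarefree m) {m : ℕ} (hm : m ∈ S) : 0 < m :=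
  Nat.pos_of_ne_zero (hsq m hm).ne_zero

lemma moebius_sum (S : Finset ℕ) (hsq : ∀ m ∈ S, Squarefree m) (hcl : ∀ m ∈ S, ∀ d, d ∣ m → d ∈ S) (r m : ℕ) (hr : r ∈ S) (hm : m ∈ S) :
    ∑ d ∈ S, (if r ∣ d ∧ d ∣ m then (μ d : ℝ) else 0) = if m = r then (μ r : ℝ) else 0 := by
  have hs := hsq m hm
  by_cases hrm : r ∣ m
  · obtain ⟨c, rfl⟩ := hrm
    have hr0 : 0 < r := pos_of_mem hsq hr
    have hc0 : c ≠ 0 := fun h => by rw [h, mul_zero] at hs; exact hs.ne_zero rfl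
    have hcop := sw_coprime hs
    rw [← Finset.sum_filter]
    have himg : S.filter (fun d => r ∣ d ∧ d ∣ r * c) =
        c.divisors.image (fun d => r * d) := by
      ext d
      rw [Finset.mem_filter, Finset.mem_image]
      constructor
      · rintro ⟨_, ⟨d', rfl⟩, h2⟩
        exact ⟨d', Nat.mem_divisors.2 ⟨Nat.dvd_of_mul_dvd_mul_left hr0 h2, hc0⟩, rfl⟩
      · rintro ⟨d', hd', rfl⟩
        have hdc := Nat.dvd_of_mem_divisors hd'
        exact ⟨hcl _ hm _ (Nat.mul_dvd_mul_left r hdc), Dvd.intro _ rfl, Nat.mul_dvd_mul_left r hdc⟩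
    rw [himg, Finset.sum_image (fun a _ b _ hab => Nat.eq_of_mul_eq_mul_left hr0 hab)]
    have h1 : ∀ d ∈ c.divisors, ((μ (r * d) : ℤ) : ℝ) = (μ r : ℝ) * (μ d : ℝ) := by
      intro d hd
      have : Nat.Coprime r d := Nat.Coprime.coprime_dvd_right (Nat.dvd_of_mem_divisors hd) hcop
      rw [ArithmeticFunction.isMultiplicative_moebius.map_mul_of_coprime this]
      push_cast
      ring
    rw [Finset.sum_congr rfl h1, ← Finset.mul_sum]
    have h2 : ∑ d ∈ c.divisors, (μ d : ℤ) = if c = 1 then 1 else 0 := by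
      rw [← ArithmeticFunction.coe_mul_zeta_apply, ArithmeticFunction.moebius_mul_coe_zeta,
        ArithmeticFunction.one_apply]
    have h3 : ∑ d ∈ c.divisors, ((μ d : ℤ) : ℝ) = if c = 1 then 1 else 0 := by
      have := congrArg (fun x : ℤ => (x : ℝ)) h2
      push_cast at this
      exact this
    rw [h3]
    by_cases hc1 : c = 1
    · rw [if_pos hc1, hc1, mul_one, if_pos (mul_one r)]
    · have : r * c ≠ r := fun h => hc1 (Nat.eq_of_mul_eq_mul_left hr0 (by rw [h, mul_one]))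
      rw [if_neg hc1, if_neg this, mul_zero]
  · have h1 : m ≠ r := fun h => hrm (h ▸ dvd_refl _)
    rw [if_neg h1]
    apply Finset.sum_eq_zero
    intro d _
    rw [if_neg]
    rintro ⟨h2, h3⟩
    exact hrm (h2.trans h3)

lemma sum_Y (S : Finset ℕ) (hsq : ∀ m ∈ S, Squarefree m) (hcl : ∀ m ∈ S, ∀ d, d ∣ m → d ∈ S) (r : ℕ) (hr : r ∈ S) :
    ∑ d ∈ S, (if r ∣ d then lam S d / d else 0) = (μ r : ℝ) * sw_g r * (GS S)⁻¹ := by
  have h1 : ∀ d ∈ S, (if r ∣ d then lam S d / d else 0) =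
      ∑ m ∈ S, (GS S)⁻¹ * (sw_g m * (if r ∣ d ∧ d ∣ m then (μ d : ℝ) else 0)) := by
    intro d hd
    have hd0 : (d : ℝ) ≠ 0 := by exact_mod_cast (pos_of_mem hsq hd).ne'
    by_cases hrd : r ∣ d
    · rw [if_pos hrd]
      unfold lam
      rw [Finset.sum_filter, ← Finset.mul_sum]
      have e1 : ∑ m ∈ S, sw_g m * (if r ∣ d ∧ d ∣ m then (μ d : ℝ) else 0) =
          (∑ m ∈ S, if d ∣ m then sw_g m else 0) * (μ d : ℝ) := by
        rw [Finset.sum_mul]
        refine Finset.sum_congr rfl fun m _ => ?_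
        by_cases hdm : d ∣ m
        · rw [if_pos hdm, if_pos ⟨hrd, hdm⟩]
        · rw [if_neg hdm, if_neg (fun h => hdm h.2)]
          simp
      rw [e1]
      field_simp
    · rw [if_neg hrd]
      symm
      apply Finset.sum_eq_zero
      intro m _
      rw [if_neg (fun h => hrd h.1)]
      simp
  rw [Finset.sum_congr rfl h1, Finset.sum_comm]
  have h2 : ∀ m ∈ S, ∑ d ∈ S,
      (GS S)⁻¹ * (sw_g m * (if r ∣ d ∧ d ∣ m then (μ d : ℝ) else 0)) =
      if m = r then (GS S)⁻¹ * (sw_g r * (μ r : ℝ)) else 0 := by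
    intro m hm
    rw [← Finset.mul_sum, ← Finset.mul_sum, moebius_sum S hsq hcl r m hr hm]
    by_cases hmr : m = r
    · rw [if_pos hmr, if_pos hmr, hmr]
    · rw [if_neg hmr, if_neg hmr]
      simp
  rw [Finset.sum_congr rfl h2, Finset.sum_ite_eq' S r, if_pos hr]
  ring

lemma one_div_lcm (S : Finset ℕ) (hsq : ∀ m ∈ S, Squarefree m) (hcl : ∀ m ∈ S, ∀ d, d ∣ m → d ∈ S) (d e : ℕ) (hd : d ∈ S) (he : e ∈ S) :
    1 / (Nat.lcm d e : ℝ) = ∑ r ∈ S, (if r ∣ d then 1 / (d : ℝ) else 0) *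
      ((if r ∣ e then 1 / (e : ℝ) else 0) * (Nat.totient r : ℝ)) := by
  have hd1 := pos_of_mem hsq hd
  have he1 := pos_of_mem hsq he
  have hd0 : (0 : ℝ) < d := by exact_mod_cast hd1
  have he0 : (0 : ℝ) < e := by exact_mod_cast he1
  have h1 : ∑ r ∈ S, (if r ∣ d then 1 / (d : ℝ) else 0) *
      ((if r ∣ e then 1 / (e : ℝ) else 0) * (Nat.totient r : ℝ)) =
      1 / ((d : ℝ) * e) * ∑ r ∈ (Nat.gcd d e).divisors, (Nat.totient r : ℝ) := by
    have hg0 : 0 < Nat.gcd d e := Nat.gcd_pos_of_pos_left _ hd1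
    have hdiv : (Nat.gcd d e).divisors = S.filter (fun r => r ∣ d ∧ r ∣ e) := by
      ext r
      rw [Nat.mem_divisors, Finset.mem_filter, Nat.dvd_gcd_iff]
      constructor
      · rintro ⟨⟨h2, h3⟩, _⟩
        exact ⟨hcl d hd r h2, h2, h3⟩
      · rintro ⟨_, h2, h3⟩
        exact ⟨⟨h2, h3⟩, hg0.ne'⟩
    rw [hdiv, Finset.sum_filter, Finset.mul_sum]
    refine Finset.sum_congr rfl fun r _ => ?_
    by_cases h2 : r ∣ d
    · by_cases h3 : r ∣ e
      · rw [if_pos h2, if_pos h3, if_pos ⟨h2, h3⟩]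
        field_simp
      · rw [if_neg h3, if_neg (show ¬ (r ∣ d ∧ r ∣ e) from fun h => h3 h.2)]
        simp
    · rw [if_neg h2, if_neg (show ¬ (r ∣ d ∧ r ∣ e) from fun h => h2 h.1)]
      simp
  rw [h1]
  have h2 : ∑ r ∈ (Nat.gcd d e).divisors, (Nat.totient r : ℝ) = (Nat.gcd d e : ℝ) := by
    have := Nat.sum_totient (Nat.gcd d e)
    exact_mod_cast this
  rw [h2]
  have h3 : (Nat.gcd d e : ℝ) * (Nat.lcm d e : ℝ) = (d : ℝ) * e := by
    exact_mod_cast Nat.gcd_mul_lcm d e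
  have hl0 : (0 : ℝ) < Nat.lcm d e := by
    exact_mod_cast Nat.lcm_pos hd1 he1
  have hg0 : (0 : ℝ) < Nat.gcd d e := by
    exact_mod_cast Nat.gcd_pos_of_pos_left _ hd1
  rw [← h3]
  field_simp

lemma form (S : Finset ℕ) (h1S : 1 ∈ S) (hsq : ∀ m ∈ S, Squarefree m) (hcl : ∀ m ∈ S, ∀ d, d ∣ m → d ∈ S) :
    ∑ d ∈ S, ∑ e ∈ S, lam S d * lam S e / (Nat.lcm d e : ℝ) = (GS S)⁻¹ := by
  have hG := GS_pos h1S
  have h1 : ∀ d ∈ S, ∀ e ∈ S, lam S d * lam S e / (Nat.lcm d e : ℝ) =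
      ∑ r ∈ S, (Nat.totient r : ℝ) * ((if r ∣ d then lam S d / d else 0) *
        (if r ∣ e then lam S e / e else 0)) := by
    intro d hd e he
    rw [div_eq_mul_one_div, one_div_lcm S hsq hcl d e hd he, Finset.mul_sum]
    refine Finset.sum_congr rfl fun r _ => ?_
    split_ifs <;> ring
  have h2 : ∑ d ∈ S, ∑ e ∈ S, lam S d * lam S e / (Nat.lcm d e : ℝ) =
      ∑ r ∈ S, (Nat.totient r : ℝ) *
        (∑ d ∈ S, (if r ∣ d then lam S d / d else 0)) ^ 2 := by
    calc ∑ d ∈ S, ∑ e ∈ S, lam S d * lam S e / (Nat.lcm d e : ℝ)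
        = ∑ d ∈ S, ∑ e ∈ S, ∑ r ∈ S, (Nat.totient r : ℝ) *
          ((if r ∣ d then lam S d / d else 0) * (if r ∣ e then lam S e / e else 0)) :=
          Finset.sum_congr rfl fun d hd => Finset.sum_congr rfl fun e he => h1 d hd e he
      _ = ∑ r ∈ S, ∑ d ∈ S, ∑ e ∈ S, (Nat.totient r : ℝ) *
          ((if r ∣ d then lam S d / d else 0) * (if r ∣ e then lam S e / e else 0)) := by
          rw [Finset.sum_comm]
          rw [Finset.sum_congr rfl fun e _ => Finset.sum_comm]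
          rw [Finset.sum_comm]
          exact Finset.sum_congr rfl fun r _ => Finset.sum_comm
      _ = _ := by
          refine Finset.sum_congr rfl fun r _ => ?_
          rw [sq, Finset.sum_mul_sum, Finset.mul_sum]
          refine Finset.sum_congr rfl fun d _ => ?_
          rw [Finset.mul_sum]
  rw [h2]
  have h3 : ∀ r ∈ S, (Nat.totient r : ℝ) *
        (∑ d ∈ S, (if r ∣ d then lam S d / d else 0)) ^ 2 =
        sw_g r * ((GS S)⁻¹) ^ 2 := by
    intro r hr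
    rw [sum_Y S hsq hcl r hr]
    have hs := hsq r hr
    have e1 := sw_phi_g hs
    have e2 : ((μ r : ℤ) : ℝ) ^ 2 = 1 := by
      have := ArithmeticFunction.moebius_sq_eq_one_of_squarefree hs
      exact_mod_cast this
    calc (Nat.totient r : ℝ) * ((μ r : ℝ) * sw_g r * (GS S)⁻¹) ^ 2 =
        ((μ r : ℝ) ^ 2) * ((Nat.totient r : ℝ) * sw_g r) * (sw_g r * ((GS S)⁻¹) ^ 2) := by ring
      _ = _ := by rw [e1, e2, one_mul, one_mul]
  rw [Finset.sum_congr rfl h3, ← Finset.sum_mul]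
  show GS S * ((GS S)⁻¹) ^ 2 = (GS S)⁻¹
  field_simp

/-- **package SEL** -/
theorem sel : S_SEL := by
  intro S h1S hsq hcl
  have hG := GS_pos h1S
  refine ⟨?_, ?_, ?_, ?_⟩
  · unfold lam
    have : S.filter (fun m => 1 ∣ m) = S :=
      Finset.filter_true_of_mem (fun m _ => one_dvd m)
    rw [this]
    show ((μ 1 : ℤ) : ℝ) * ((1 : ℕ) : ℝ) * GS S / GS S = 1
    rw [ArithmeticFunction.moebius_apply_one]
    push_cast
    field_simp
  · intro d
    by_cases hs : Squarefree d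
    · have h1 := key S hsq hcl d hs
      have hnn : 0 ≤ ∑ m ∈ S.filter (fun m => d ∣ m), sw_g m :=
        Finset.sum_nonneg fun m _ => sw_g_nonneg m
      have h2 : |((μ d : ℤ) : ℝ)| = 1 := by
        have := ArithmeticFunction.moebius_sq_eq_one_of_squarefree hs
        have h3 : ((μ d : ℤ) : ℝ) ^ 2 = 1 := by exact_mod_cast this
        rw [← sq_abs] at h3
        nlinarith [abs_nonneg ((μ d : ℤ) : ℝ)]
      unfold lam
      rw [abs_div, abs_mul, abs_mul, h2, abs_of_nonneg (Nat.cast_nonneg d), one_mul,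
        abs_of_pos hG, abs_of_nonneg hnn, div_le_one hG]
      exact h1
    · unfold lam
      rw [ArithmeticFunction.moebius_eq_zero_of_not_squarefree hs]
      simp
  · intro d hd
    unfold lam
    have : S.filter (fun m => d ∣ m) = ∅ := by
      apply Finset.filter_false_of_mem
      intro m hm hdm
      exact hd (hcl m hm d hdm)
    rw [this, Finset.sum_empty, mul_zero, zero_div]
  · rw [form S h1S hsq hcl, one_div]

end Pool.Agent.P8H65.KV
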