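import Pool.Agent.P8H73.KV.Stm

/-! Package TRV of the project KV: the greatest common divisor, and the trivial part of the error term. -/

set_option autoImplicit false

namespace Pool.Agent.P8H65.KV

open Finset Pool.Agent.Y844.BT
open Pool.Agent.P8H73.KV (GS lam Adm Eg Err S_SEL S_TRV)

lemma Wt_le_one (L Δ n : ℕ) (hΔ : 1 ≤ Δ) : Wt L Δ n ≤ 1 := by
  unfold Wt
  have h0 : (0 : ℝ) < Δ := by exact_mod_cast hΔ
  rw [div_le_one h0]
  have h : 2 * Δ + L - n ≤ (Δ + L - n) + (Δ - n) + Δ := by omega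
  have h' : ((2 * Δ + L - n : ℕ) : ℝ) ≤ ((Δ + L - n : ℕ) : ℝ) + ((Δ - n : ℕ) : ℝ) + Δ := by
    exact_mod_cast h
  linarith

/-- the discrepancy is bounded by `L / Δ + 4` -/
theorem RR_bd (k : ℕ) (l c : ℤ) (L Δ q : ℕ) (hk : 1 ≤ k) (hΔ : 1 ≤ Δ) (hq1 : 1 ≤ q) (hq : Nat.Coprime q k) :
    |RR k l c L Δ q| ≤ (L : ℝ) / Δ + 4 := by
  have : NeZero k := ⟨by omega⟩
  have h0 : (0 : ℝ) < Δ := by exact_mod_cast hΔ
  have hL0 : (0 : ℝ) ≤ (L : ℝ) / Δ := by positivity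
  by_cases hle : q ≤ 2 * Δ + L
  · refine (RR_triv k l c L Δ q hΔ hq1 hq).trans ?_
    have h1 : (q : ℝ) ≤ 2 * Δ + L := by exact_mod_cast hle
    rw [div_le_iff₀ h0]
    have : ((L : ℝ) / Δ + 4) * Δ = L + 4 * Δ := by field_simp
    rw [this]
    linarith
  · push Not at hle
    have hq0 : (0 : ℝ) < q := by exact_mod_cast hq1
    have hnn : 0 ≤ ∑ n ∈ range (2 * Δ + L), Wt L Δ n * (if (q : ℤ) ∣ k * (c + n) + l then 1 else 0) := by
      apply sum_nonneg
      intro n _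
      have := Wt_nonneg L Δ n
      split_ifs <;> simp [this]
    have hle1 : ∑ n ∈ range (2 * Δ + L), Wt L Δ n * (if (q : ℤ) ∣ k * (c + n) + l then 1 else 0) ≤ 1 := by
      have h2 : ∑ n ∈ range (2 * Δ + L), Wt L Δ n * (if (q : ℤ) ∣ k * (c + n) + l then 1 else 0) ≤
          ∑ n ∈ range (2 * Δ + L), (if (q : ℤ) ∣ k * (c + n) + l then (1 : ℝ) else 0) := by
        apply sum_le_sum
        intro n _
        have := Wt_le_one L Δ n hΔ
        split_ifs <;> simp [this]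
      refine h2.trans ?_
      rw [← sum_filter, sum_const, nsmul_eq_mul, mul_one]
      have h3 : ((range (2 * Δ + L)).filter (fun n : ℕ => (q : ℤ) ∣ k * (c + n) + l)).card ≤ 1 := by
        rw [card_le_one]
        intro a ha b hb
        rw [mem_filter, mem_range] at ha hb
        have h4 : (q : ℤ) ∣ (k : ℤ) * ((a : ℤ) - b) := by
          have := dvd_sub ha.2 hb.2
          have e : (k : ℤ) * (c + a) + l - (k * (c + b) + l) = k * ((a : ℤ) - b) := by ring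
          rwa [e] at this
        have h5 : (q : ℤ) ∣ (a : ℤ) - b := (Nat.isCoprime_iff_coprime.2 hq).dvd_of_dvd_mul_left h4
        have h6 : |(a : ℤ) - b| < q := by
          rw [abs_lt]
          constructor <;> omega
        have h7 := Int.eq_zero_of_abs_lt_dvd h5 h6
        omega
      exact_mod_cast h3
    have h8 : ((Δ : ℝ) + L) / q ≤ 1 := by
      rw [div_le_one hq0]
      have : ((2 * Δ + L : ℕ) : ℝ) < q := by exact_mod_cast hle
      push_cast at this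
      linarith
    have h9 : 0 ≤ ((Δ : ℝ) + L) / q := by positivity
    unfold RR
    rw [abs_le]
    constructor <;> linarith

/-- the summand -/
noncomputable def FF (k : ℕ) (l c : ℤ) (L Δ : ℕ) (S : Finset ℕ) (g m n : ℕ) : ℝ :=
  (if Nat.Coprime m n then 1 else 0) * (lam S (g * m) * lam S (g * n) * RR k l c L Δ (g * (m * n)))

lemma reindex (k : ℕ) (l c : ℤ) (L Δ : ℕ) (S : Finset ℕ) (hpos : ∀ m ∈ S, 0 < m)
    (hcl : ∀ m ∈ S, ∀ d, d ∣ m → d ∈ S) (hl : ∀ d, d ∉ S → lam S d = 0) :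
    Err k l c L Δ S = ∑ g ∈ S, ∑ m ∈ S, ∑ n ∈ S, FF k l c L Δ S g m n := by
  have h1 : ∑ g ∈ S, ∑ m ∈ S, ∑ n ∈ S, FF k l c L Δ S g m n =
      ∑ t ∈ S ×ˢ (S ×ˢ S), FF k l c L Δ S t.1 t.2.1 t.2.2 := by
    rw [sum_product]
    exact sum_congr rfl fun g _ => by rw [sum_product]
  have h2 : ∑ t ∈ S ×ˢ (S ×ˢ S), FF k l c L Δ S t.1 t.2.1 t.2.2 =
      ∑ t ∈ (S ×ˢ (S ×ˢ S)).filter (fun t => Nat.Coprime t.2.1 t.2.2 ∧ t.1 * t.2.1 ∈ S ∧ t.1 * t.2.2 ∈ S),
        FF k l c L Δ S t.1 t.2.1 t.2.2 := by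
    symm
    apply sum_filter_of_ne
    intro t _ hne
    by_contra hcon
    apply hne
    unfold FF
    by_cases a : Nat.Coprime t.2.1 t.2.2
    · by_cases b : t.1 * t.2.1 ∈ S
      · by_cases c : t.1 * t.2.2 ∈ S
        · exact absurd ⟨a, b, c⟩ hcon
        · rw [hl _ c]
          ring
      · rw [hl _ b]
        ring
    · rw [if_neg a]
      ring
  rw [h1, h2]
  unfold Err
  rw [← sum_product' (f := fun d e => lam S d * lam S e * RR k l c L Δ (Nat.lcm d e))]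
  refine sum_nbij' (fun p : ℕ × ℕ => (Nat.gcd p.1 p.2, (p.1 / Nat.gcd p.1 p.2, p.2 / Nat.gcd p.1 p.2)))
    (fun t : ℕ × ℕ × ℕ => (t.1 * t.2.1, t.1 * t.2.2)) ?_ ?_ ?_ ?_ ?_
  · rintro ⟨d, e⟩ hp
    rw [mem_product] at hp
    obtain ⟨hd, he⟩ := hp
    simp only at hd he
    have hg0 : 0 < Nat.gcd d e := Nat.gcd_pos_of_pos_left _ (hpos d hd)
    have e1 : Nat.gcd d e * (d / Nat.gcd d e) = d := Nat.mul_div_cancel' (Nat.gcd_dvd_left d e)
    have e2 : Nat.gcd d e * (e / Nat.gcd d e) = e := Nat.mul_div_cancel' (Nat.gcd_dvd_right d e)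
    rw [mem_filter, mem_product, mem_product]
    simp only
    refine ⟨⟨hcl d hd _ (Nat.gcd_dvd_left d e), hcl d hd _ (Nat.div_dvd_of_dvd (Nat.gcd_dvd_left d e)),
      hcl e he _ (Nat.div_dvd_of_dvd (Nat.gcd_dvd_right d e))⟩, Nat.coprime_div_gcd_div_gcd hg0, ?_, ?_⟩
    · rw [e1]
      exact hd
    · rw [e2]
      exact he
  · rintro ⟨g, m, n⟩ ht
    rw [mem_filter] at ht
    rw [mem_product]
    exact ht.2.2
  · rintro ⟨d, e⟩ hp
    simp only
    rw [Nat.mul_div_cancel' (Nat.gcd_dvd_left d e), Nat.mul_div_cancel' (Nat.gcd_dvd_right d e)]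
  · rintro ⟨g, m, n⟩ ht
    rw [mem_filter, mem_product, mem_product] at ht
    obtain ⟨⟨hg, hm, hn⟩, hcop, h3, h4⟩ := ht
    simp only at hg hm hn hcop h3 h4 ⊢
    have hg0 := hpos g hg
    have e1 : Nat.gcd (g * m) (g * n) = g := by
      rw [Nat.gcd_mul_left, hcop.gcd_eq_one, mul_one]
    rw [e1, Nat.mul_div_cancel_left m hg0, Nat.mul_div_cancel_left n hg0]
  · rintro ⟨d, e⟩ hp
    rw [mem_product] at hp
    obtain ⟨hd, he⟩ := hp
    simp only at hd he ⊢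
    have hg0 : 0 < Nat.gcd d e := Nat.gcd_pos_of_pos_left _ (hpos d hd)
    have e1 : Nat.gcd d e * (d / Nat.gcd d e) = d := Nat.mul_div_cancel' (Nat.gcd_dvd_left d e)
    have e2 : Nat.gcd d e * (e / Nat.gcd d e) = e := Nat.mul_div_cancel' (Nat.gcd_dvd_right d e)
    unfold FF
    rw [if_pos (Nat.coprime_div_gcd_div_gcd hg0), one_mul, e1, e2]
    have e3 : Nat.lcm d e = Nat.gcd d e * (d / Nat.gcd d e * (e / Nat.gcd d e)) := by
      apply Nat.eq_of_mul_eq_mul_left hg0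
      rw [Nat.gcd_mul_lcm]
      calc d * e = (Nat.gcd d e * (d / Nat.gcd d e)) * (Nat.gcd d e * (e / Nat.gcd d e)) := by rw [e1, e2]
        _ = _ := by ring
    rw [e3]

lemma card_le_real (A : Finset ℕ) (X : ℝ) (hX : 0 ≤ X) (h : ∀ m ∈ A, 1 ≤ m ∧ (m : ℝ) ≤ X) : (A.card : ℝ) ≤ X := by
  have h1 : A ⊆ Icc 1 ⌊X⌋₊ := by
    intro m hm
    rw [mem_Icc]
    exact ⟨(h m hm).1, Nat.le_floor (h m hm).2⟩
  have h2 := card_le_card h1
  rw [Nat.card_Icc, Nat.add_sub_cancel] at h2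
  calc (A.card : ℝ) ≤ (⌊X⌋₊ : ℝ) := by exact_mod_cast h2
    _ ≤ X := Nat.floor_le hX

lemma blk (k : ℕ) (l c : ℤ) (L Δ : ℕ) (S : Finset ℕ) (R : ℝ) (hk : 1 ≤ k) (hΔ : 1 ≤ Δ) (hR : 0 ≤ R)
    (hA : Adm S k R) (hlam : ∀ d, |lam S d| ≤ 1) (hl : ∀ d, d ∉ S → lam S d = 0)
    (g : ℕ) (A A' : Finset ℕ) (X X' : ℝ) (hX : 0 ≤ X) (hX' : 0 ≤ X')
    (h1 : ∀ m ∈ A, 1 ≤ m ∧ (g * m ∈ S → (m : ℝ) ≤ X)) (h2 : ∀ m ∈ A', 1 ≤ m ∧ (g * m ∈ S → (m : ℝ) ≤ X')) :
    |∑ m ∈ A, ∑ n ∈ A', FF k l c L Δ S g m n| ≤ ((L : ℝ) / Δ + 4) * (X * X') := by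
  have h0 : (0 : ℝ) < Δ := by exact_mod_cast hΔ
  have hB : (0 : ℝ) ≤ (L : ℝ) / Δ + 4 := by positivity
  have h3 : ∀ m n : ℕ, |FF k l c L Δ S g m n| ≤ ((L : ℝ) / Δ + 4) *
      ((if g * m ∈ S then 1 else 0) * (if g * n ∈ S then 1 else 0)) := by
    intro m n
    unfold FF
    by_cases a : g * m ∈ S
    · by_cases b : g * n ∈ S
      · rw [if_pos a, if_pos b, mul_one, mul_one]
        have ha := (hA.2.1 _ a)
        have hb := (hA.2.1 _ b)
        have hcop : Nat.Coprime (g * (m * n)) k := by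
          have e1 : Nat.Coprime g k := Nat.Coprime.coprime_dvd_left (Dvd.intro _ rfl) ha.2.1
          have e2 : Nat.Coprime m k := Nat.Coprime.coprime_dvd_left (Dvd.intro_left _ rfl) ha.2.1
          have e3 : Nat.Coprime n k := Nat.Coprime.coprime_dvd_left (Dvd.intro_left _ rfl) hb.2.1
          exact Nat.Coprime.mul_left e1 (Nat.Coprime.mul_left e2 e3)
        have hpos : 1 ≤ g * (m * n) := by
          have e1 := ha.1.ne_zero
          have e2 := hb.1.ne_zero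
          have : g * (m * n) ≠ 0 := by
            rw [mul_ne_zero_iff] at e1 e2
            exact mul_ne_zero e1.1 (mul_ne_zero e1.2 e2.2)
          omega
        have hRR := RR_bd k l c L Δ _ hk hΔ hpos hcop
        have hc : |(if Nat.Coprime m n then (1 : ℝ) else 0)| ≤ 1 := by
          split_ifs <;> simp
        rw [abs_mul, abs_mul, abs_mul]
        have i1 := hlam (g * m)
        have i2 := hlam (g * n)
        have i3 : |lam S (g * m)| * |lam S (g * n)| ≤ 1 := by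
          calc |lam S (g * m)| * |lam S (g * n)| ≤ 1 * 1 :=
            mul_le_mul i1 i2 (abs_nonneg _) zero_le_one
            _ = 1 := one_mul 1
        have i4 : |lam S (g * m)| * |lam S (g * n)| * |RR k l c L Δ (g * (m * n))| ≤ 1 * ((L : ℝ) / Δ + 4) :=
          mul_le_mul i3 hRR (abs_nonneg _) zero_le_one
        calc |(if Nat.Coprime m n then (1 : ℝ) else 0)| *
              (|lam S (g * m)| * |lam S (g * n)| * |RR k l c L Δ (g * (m * n))|)
            ≤ 1 * (1 * ((L : ℝ) / Δ + 4)) := mul_le_mul hc i4 (by positivity) zero_le_one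
          _ = _ := by ring
      · rw [hl _ b, if_neg b]
        simp
    · rw [hl _ a, if_neg a]
      simp
  have hcnt : ∀ (A : Finset ℕ) (X : ℝ), 0 ≤ X → (∀ m ∈ A, 1 ≤ m ∧ (g * m ∈ S → (m : ℝ) ≤ X)) →
      ∑ m ∈ A, (if g * m ∈ S then (1 : ℝ) else 0) ≤ X := by
    intro A X hX h1
    rw [← sum_filter, sum_const, nsmul_eq_mul, mul_one]
    apply card_le_real _ _ hX
    intro m hm
    rw [mem_filter] at hm
    exact ⟨(h1 m hm.1).1, (h1 m hm.1).2 hm.2⟩
  calc |∑ m ∈ A, ∑ n ∈ A', FF k l c L Δ S g m n| ≤ ∑ m ∈ A, ∑ n ∈ A', |FF k l c L Δ S g m n| := by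
        refine (abs_sum_le_sum_abs _ _).trans ?_
        exact sum_le_sum fun m _ => abs_sum_le_sum_abs _ _
    _ ≤ ∑ m ∈ A, ∑ n ∈ A', ((L : ℝ) / Δ + 4) * ((if g * m ∈ S then 1 else 0) * (if g * n ∈ S then 1 else 0)) :=
        sum_le_sum fun m _ => sum_le_sum fun n _ => h3 m n
    _ = ((L : ℝ) / Δ + 4) * ((∑ m ∈ A, (if g * m ∈ S then 1 else 0)) * ∑ n ∈ A', (if g * n ∈ S then 1 else 0)) := by
        rw [sum_mul_sum, mul_sum]
        refine sum_congr rfl fun m _ => ?_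
        rw [mul_sum]
    _ ≤ ((L : ℝ) / Δ + 4) * (X * X') := by
        apply mul_le_mul_of_nonneg_left _ hB
        apply mul_le_mul (hcnt A X hX h1) (hcnt A' X' hX' h2) _ hX
        apply sum_nonneg
        intro n _
        split_ifs <;> norm_num

/-- the sum of the sizes of the blocks -/
lemma gsum (S : Finset ℕ) (R G0 : ℝ) (hG : 1 ≤ G0) (hGR : G0 ≤ R) (hS : ∀ g ∈ S, 1 ≤ g ∧ (g : ℝ) ≤ R) :
    ∑ g ∈ S, min (R / G0) (R / g) * (R / g) ≤ 3 * (R ^ 2 / G0) * (1 + Real.log G0) := by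
  have hG0 : 0 < G0 := by linarith
  have hR0 : 0 < R := by linarith
  obtain ⟨N, hN⟩ : ∃ N, N = ⌊G0⌋₊ := ⟨_, rfl⟩
  obtain ⟨M, hM⟩ : ∃ M, M = ⌊R⌋₊ := ⟨_, rfl⟩
  have hN1 : 1 ≤ N := by
    rw [hN]
    exact Nat.le_floor (by exact_mod_cast hG)
  have hNM : N ≤ M := by
    rw [hN, hM]
    exact Nat.floor_mono hGR
  have hNG : (N : ℝ) ≤ G0 := by
    rw [hN]
    exact Nat.floor_le hG0.le
  have hGN : G0 < (N : ℝ) + 1 := by
    rw [hN]
    exact Nat.lt_floor_add_one G0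
  have hN0 : (0 : ℝ) < N := by exact_mod_cast hN1
  have hsub : S ⊆ Icc 1 M := by
    intro g hg
    rw [mem_Icc, hM]
    exact ⟨(hS g hg).1, Nat.le_floor (hS g hg).2⟩
  have hterm : ∀ g : ℕ, 1 ≤ g → 0 ≤ min (R / G0) (R / g) * (R / g) := by
    intro g hg
    have : (0 : ℝ) < g := by exact_mod_cast hg
    positivity
  have h1 : ∑ g ∈ S, min (R / G0) (R / g) * (R / g) ≤ ∑ g ∈ Icc 1 M, min (R / G0) (R / g) * (R / g) := by
    apply sum_le_sum_of_subset_of_nonneg hsub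
    intro g hg _
    exact hterm g (mem_Icc.1 hg).1
  have h2 : Icc 1 M = Icc 1 N ∪ Ioc N M := by
    ext g
    rw [mem_union, mem_Icc, mem_Icc, mem_Ioc]
    omega
  have h3 : Disjoint (Icc 1 N) (Ioc N M) := by
    rw [Finset.disjoint_left]
    intro g hg hg'
    rw [mem_Icc] at hg
    rw [mem_Ioc] at hg'
    omega
  rw [h2, sum_union h3] at h1
  have h4 : ∑ g ∈ Icc 1 N, min (R / G0) (R / g) * (R / g) ≤ (R ^ 2 / G0) * (1 + Real.log G0) := by
    have e1 : ∑ g ∈ Icc 1 N, min (R / G0) (R / g) * (R / g) ≤ ∑ g ∈ Icc 1 N, (R ^ 2 / G0) * ((g : ℝ))⁻¹ := by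
      apply sum_le_sum
      intro g hg
      have hg0 : (0 : ℝ) < g := by exact_mod_cast (mem_Icc.1 hg).1
      calc min (R / G0) (R / g) * (R / g) ≤ (R / G0) * (R / g) :=
            mul_le_mul_of_nonneg_right (min_le_left _ _) (by positivity)
        _ = _ := by
            field_simp
    refine e1.trans ?_
    rw [← mul_sum]
    apply mul_le_mul_of_nonneg_left _ (by positivity)
    have e2 := harmonic_le_one_add_log N
    have e3 : ((harmonic N : ℚ) : ℝ) = ∑ g ∈ Icc 1 N, ((g : ℝ))⁻¹ := by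
      rw [harmonic_eq_sum_Icc]
      push_cast
      rfl
    rw [← e3]
    refine e2.trans ?_
    have := Real.log_le_log hN0 hNG
    linarith
  have h5 : ∑ g ∈ Ioc N M, min (R / G0) (R / g) * (R / g) ≤ 2 * (R ^ 2 / G0) := by
    have e1 : ∑ g ∈ Ioc N M, min (R / G0) (R / g) * (R / g) ≤ ∑ g ∈ Ioc N M, R ^ 2 * (((g : ℝ)) ^ 2)⁻¹ := by
      apply sum_le_sum
      intro g hg
      have hg0 : (0 : ℝ) < g := by
        have := (mem_Ioc.1 hg).1
        have h : 0 < g := by omega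
        exact_mod_cast h
      calc min (R / G0) (R / g) * (R / g) ≤ (R / g) * (R / g) :=
            mul_le_mul_of_nonneg_right (min_le_right _ _) (by positivity)
        _ = _ := by
            field_simp
    refine e1.trans ?_
    rw [← mul_sum]
    have e2 := sum_Ioc_inv_sq_le_sub (α := ℝ) (k := N) (n := M) (by omega) hNM
    have e3 : (0 : ℝ) ≤ ((M : ℝ))⁻¹ := by positivity
    have e4 : ((N : ℝ))⁻¹ ≤ 2 / G0 := by
      rw [inv_eq_one_div, div_le_div_iff₀ hN0 hG0]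
      have : (1 : ℝ) ≤ N := by exact_mod_cast hN1
      linarith
    calc R ^ 2 * ∑ g ∈ Ioc N M, (((g : ℝ)) ^ 2)⁻¹ ≤ R ^ 2 * (2 / G0) := by
          apply mul_le_mul_of_nonneg_left _ (by positivity)
          linarith
      _ = _ := by ring
  have hlog : 0 ≤ Real.log G0 := Real.log_nonneg hG
  have hq : 0 ≤ R ^ 2 / G0 := by positivity
  nlinarith [mul_nonneg hq hlog]

/-- **package TRV** -/
theorem trv : S_SEL → S_TRV := by
  intro hSEL k l c L Δ S R G0 hk hΔ hG hGR hA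
  have hsq : ∀ m ∈ S, Squarefree m := fun m hm => (hA.2.1 m hm).1
  have hcl := hA.2.2
  obtain ⟨_, hlam, hl, _⟩ := hSEL S hA.1 hsq hcl
  have hpos : ∀ m ∈ S, 0 < m := fun m hm => Nat.pos_of_ne_zero (hsq m hm).ne_zero
  have hG0 : 0 < G0 := by linarith
  have hR0 : 0 < R := by linarith
  have hΔ0 : (0 : ℝ) < Δ := by exact_mod_cast hΔ
  have hB : (0 : ℝ) ≤ (L : ℝ) / Δ + 4 := by positivity
  obtain ⟨Y, hY⟩ : ∃ Y, Y = R / G0 := ⟨_, rfl⟩
  have hY0 : 0 ≤ Y := by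
    rw [hY]
    positivity
  rw [← hY, reindex k l c L Δ S hpos hcl hl]
  -- the splitting for one `g`
  have hsplit : ∀ g ∈ S, |∑ m ∈ S, ∑ n ∈ S, FF k l c L Δ S g m n| ≤
      |Eg k l c L Δ S Y g| + 2 * ((L : ℝ) / Δ + 4) * (min (R / G0) (R / g) * (R / g)) := by
    intro g hg
    have hg0 : (0 : ℝ) < g := by exact_mod_cast hpos g hg
    have hdiv : ∀ m : ℕ, g * m ∈ S → (m : ℝ) ≤ R / g := by
      intro m hm
      have := (hA.2.1 _ hm).2.2
      push_cast at this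
      rw [le_div_iff₀ hg0]
      linarith
    have e1 : ∑ m ∈ S, ∑ n ∈ S, FF k l c L Δ S g m n =
        Eg k l c L Δ S Y g + ∑ m ∈ S.filter (fun m : ℕ => Y < (m : ℝ)), ∑ n ∈ S.filter (fun n : ℕ => ¬ Y < (n : ℝ)),
          FF k l c L Δ S g m n + ∑ m ∈ S.filter (fun m : ℕ => ¬ Y < (m : ℝ)), ∑ n ∈ S, FF k l c L Δ S g m n := by
      rw [← sum_filter_add_sum_filter_not S (fun m : ℕ => Y < (m : ℝ))]
      congr 1
      unfold Eg
      rw [← sum_add_distrib]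
      refine sum_congr rfl fun m _ => ?_
      rw [← sum_filter_add_sum_filter_not S (fun n : ℕ => Y < (n : ℝ))]
      rfl
    have hmin0 : (0 : ℝ) ≤ min (R / G0) (R / g) := by positivity
    have hRg : (0 : ℝ) ≤ R / g := by positivity
    have b1 := blk k l c L Δ S R hk hΔ hR0.le hA hlam hl g (S.filter (fun m : ℕ => Y < (m : ℝ)))
      (S.filter (fun n : ℕ => ¬ Y < (n : ℝ))) (R / g) (min (R / G0) (R / g)) hRg hmin0
      (fun m hm => ⟨hpos m (mem_filter.1 hm).1, hdiv m⟩)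
      (fun m hm => ⟨hpos m (mem_filter.1 hm).1, fun h => le_min (by
        rw [← hY]
        exact not_lt.1 (mem_filter.1 hm).2) (hdiv m h)⟩)
    have b2 := blk k l c L Δ S R hk hΔ hR0.le hA hlam hl g (S.filter (fun m : ℕ => ¬ Y < (m : ℝ)))
      S (min (R / G0) (R / g)) (R / g) hmin0 hRg
      (fun m hm => ⟨hpos m (mem_filter.1 hm).1, fun h => le_min (by
        rw [← hY]
        exact not_lt.1 (mem_filter.1 hm).2) (hdiv m h)⟩)
      (fun m hm => ⟨hpos m hm, hdiv m⟩)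
    rw [e1]
    refine (abs_add_le _ _).trans ?_
    have b3 := abs_add_le (Eg k l c L Δ S Y g) (∑ m ∈ S.filter (fun m : ℕ => Y < (m : ℝ)),
      ∑ n ∈ S.filter (fun n : ℕ => ¬ Y < (n : ℝ)), FF k l c L Δ S g m n)
    have b4 : R / g * min (R / G0) (R / g) = min (R / G0) (R / g) * (R / g) := mul_comm _ _
    rw [b4] at b1
    linarith
  -- the large `g` do not contribute to the first part
  have hzero : ∀ g ∈ S, ¬ (g : ℝ) ≤ G0 → Eg k l c L Δ S Y g = 0 := by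
    intro g hg hgG
    push Not at hgG
    unfold Eg
    apply sum_eq_zero
    intro m hm
    apply sum_eq_zero
    intro n _
    have hmem : g * m ∉ S := by
      intro h
      have h1 := (hA.2.1 _ h).2.2
      push_cast at h1
      have h2 := (mem_filter.1 hm).2
      rw [hY, div_lt_iff₀ hG0] at h2
      have hm0 : (0 : ℝ) < m := by exact_mod_cast hpos m (mem_filter.1 hm).1
      nlinarith
    rw [hl _ hmem]
    ring
  have h1 : |∑ g ∈ S, ∑ m ∈ S, ∑ n ∈ S, FF k l c L Δ S g m n| ≤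
      ∑ g ∈ S, (|Eg k l c L Δ S Y g| + 2 * ((L : ℝ) / Δ + 4) * (min (R / G0) (R / g) * (R / g))) :=
    (abs_sum_le_sum_abs _ _).trans (sum_le_sum hsplit)
  rw [sum_add_distrib, ← mul_sum] at h1
  have h2 : ∑ g ∈ S, |Eg k l c L Δ S Y g| = ∑ g ∈ S.filter (fun g : ℕ => (g : ℝ) ≤ G0), |Eg k l c L Δ S Y g| := by
    symm
    apply sum_filter_of_ne
    intro g hg hne
    by_contra hcon
    exact hne (by rw [hzero g hg hcon, abs_zero])
  rw [h2] at h1
  have h3 := gsum S R G0 hG hGR (fun g hg => ⟨hpos g hg, (hA.2.1 g hg).2.2⟩)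
  have hlog : 0 ≤ Real.log G0 := Real.log_nonneg hG
  have hq : 0 ≤ R ^ 2 / G0 := by positivity
  have h4 : 2 * ((L : ℝ) / Δ + 4) * ∑ g ∈ S, min (R / G0) (R / g) * (R / g) ≤
      2 * ((L : ℝ) / Δ + 4) * (3 * (R ^ 2 / G0) * (1 + Real.log G0)) :=
    mul_le_mul_of_nonneg_left h3 (by positivity)
  have h5 : 2 * ((L : ℝ) / Δ + 4) * (3 * (R ^ 2 / G0) * (1 + Real.log G0)) ≤
      20 * ((L : ℝ) / Δ + 4) * (R ^ 2 / G0) * (1 + Real.log G0) := by
    have : 0 ≤ ((L : ℝ) / Δ + 4) * (R ^ 2 / G0) * (1 + Real.log G0) := by positivity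
    nlinarith
  linarith

end Pool.Agent.P8H65.KV
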